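import Mathlib

/-! A planar triangulation on 30 vertices (12 of degree 5, 18 of degree 6), used for MP_484915_co. -/

namespace Pool.Agent.W934.Bond

/-- open neighbourhoods as bit masks -/
def nbL : List ℕ :=
  [118, 173, 283, 1053062, 270661, 540867, 533041, 1066026, 268316, 71966784, 26263680, 35983616, 1116424, 393808, 558240, 21513216, 42997760, 69476864, 2238736, 4244064, 8459400, 235276288, 352879104, 588317696, 817923072, 681641984, 409076224, 908066816, 759169024, 461373440]

def nb (u : ℕ) : ℕ := nbL.getD u 0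

def adjB (u v : Fin 30) : Bool := (nb u).testBit v

/-- The graph. -/
def G : SimpleGraph (Fin 30) where
  Adj u v := adjB u v = true
  symm := by
    have h : ∀ u v : Fin 30, adjB u v = true → adjB v u = true := by decide +kernel
    exact ⟨h⟩
  loopless := by
    have h : ∀ u : Fin 30, ¬ adjB u u = true := by decide +kernel
    exact ⟨h⟩

instance : DecidableRel G.Adj := fun u v => inferInstanceAs (Decidable (adjB u v = true))

/-- The 84 edges. -/
def edgeL : List (Fin 30 × Fin 30) :=
  [(0, 1), (0, 2), (0, 4), (0, 5), (0, 6), (1, 2), (1, 3), (1, 5), (1, 7), (2, 3), (2, 4), (2, 8), (3, 7), (3, 8), (3, 12), (3, 20), (4, 6), (4, 8), (4, 13), (4, 18), (5, 6), (5, 7), (5, 14), (5, 19), (6, 9), (6, 13), (6, 19), (7, 10), (7, 14), (7, 20), (8, 11), (8, 12), (8, 18), (9, 13), (9, 17), (9, 19), (9, 22), (9, 26), (10, 14), (10, 15), (10, 20), (10, 23), (10, 24), (11, 12), (11, 16), (11, 18), (11, 21), (11, 25), (12, 16), (12, 20), (13, 17), (13, 18), (14, 15), (14, 19), (15, 19), (15, 22), (15, 24), (16,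 20), (16, 23), (16, 25), (17, 18), (17, 21), (17, 26), (18, 21), (19, 22), (20, 23), (21, 25), (21, 26), (21, 27), (22, 24), (22, 26), (22, 28), (23, 24), (23, 25), (23, 29), (24, 28), (24, 29), (25, 27), (25, 29), (26, 27), (26, 28), (27, 28), (27, 29), (28, 29)]

theorem adj_iff_mem (u v : Fin 30) :
    G.Adj u v ↔ ((u, v) ∈ edgeL ∨ (v, u) ∈ edgeL) := by
  have h : ∀ u v : Fin 30, adjB u v = true ↔ ((u, v) ∈ edgeL ∨ (v, u) ∈ edgeL) := by
    decide +kernel
  exact h u v

end Pool.Agent.W934.Bond
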